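import Pool.Agent.HIK.Stmts

/-! HIK, row HIG: Hilbert's irreducibility theorem for finite quotients of the Galois group. -/

set_option autoImplicit false

namespace Pool.Agent.HIK.H32

open Polynomial NumberField Matrix Pool.Agent.MTL Pool.Agent.MTL.H34 Pool.Agent.Helper78_MT

/-- HIG -/
theorem hig (hExo : ExoStmt) (hHid : HidStmt) (hDzc : DzcStmt) (hCst : CstStmt)
    (hRes : ResStmt) : HigStmt := by
  classical
  intro K _ _ N hNn hNo
  have := hNn
  have hfin : Finite (GT ⧸ N) := Subgroup.quotient_finite_of_isOpen N hNo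
  have hfK : Finite (K →+* Om) := by
    have h1 : Finite (K →ₐ[ℚ] Om) := inferInstance
    exact Finite.of_equiv _ (RingHom.equivRatAlgHom (R := K) (S := Om)).symm
  have hcl : ∀ D' : Subgroup (GT ⧸ N),
      IsClosed ((D'.comap (QuotientGroup.mk' N) : Subgroup GT) : Set GT) := by
    intro D'
    refine Subgroup.isClosed_of_isOpen _ (Subgroup.isOpen_mono (H₁ := N) ?_ hNo)
    intro σ hσ
    rw [Subgroup.mem_comap, QuotientGroup.mk'_apply, (QuotientGroup.eq_one_iff σ).2 hσ]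
    exact D'.one_mem
  choose x g hadm hgx hfix using
    fun p : {p : (K →+* Om) × Subgroup (GT ⧸ N) //
      ¬ Gph p.1 ≤ p.2.comap (QuotientGroup.mk' N)} => hExo K p.1.1 _ (hcl p.1.2) p.2
  refine ⟨⋃ p, {a : 𝓞 K | ∃ y : 𝓞 K, evalEval a y (g p) = 0},
    (hDzc K).2.1 _ _ fun p => hHid K _ (hadm p), ?_⟩
  intro a ha ψ π hπ
  obtain ⟨φ, hφ⟩ := hCst K ψ π
  refine ⟨φ, ?_⟩
  by_cases htop : Gph φ ≤ ((decG π ⊓ Gph φ).map (QuotientGroup.mk' N)).comap
      (QuotientGroup.mk' N)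
  · intro γ hγ
    obtain ⟨σ, hσ, hσγ⟩ := htop hγ
    refine ⟨σ, hσ.1, hσ.2, ?_⟩
    rw [QuotientGroup.mk'_apply, QuotientGroup.mk'_apply] at hσγ
    exact QuotientGroup.eq.1 hσγ
  · exfalso
    apply ha
    rw [Set.mem_iUnion]
    obtain ⟨p, hp⟩ : ∃ p : {p : (K →+* Om) × Subgroup (GT ⧸ N) //
      ¬ Gph p.1 ≤ p.2.comap (QuotientGroup.mk' N)},
      p = ⟨(φ, (decG π ⊓ Gph φ).map (QuotientGroup.mk' N)), htop⟩ := ⟨_, rfl⟩
    refine ⟨p, ?_⟩
    have h1 : p.1.1 = φ := by rw [hp]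
    have h2 : p.1.2 = (decG π ⊓ Gph φ).map (QuotientGroup.mk' N) := by rw [hp]
    have h3 := hgx p
    have h4 := hfix p
    rw [h1] at h3
    rw [h1, h2] at h4
    exact hRes K ψ a π hπ φ hφ _ _ (hadm p).monic h3 fun σ hσ hσφ => by
      apply h4 σ _ hσφ
      rw [Subgroup.mem_comap]
      exact Subgroup.mem_map_of_mem _ ⟨hσ, hσφ⟩

end Pool.Agent.HIK.H32
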